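import Mathlib
import Pool.Agent.Lib.MP_595dc0_ag.Defs
import Pool.Agent.Lib.MP_595dc0_ag.DkMain

set_option autoImplicit false

namespace Pool.Agent.Results.MP_595dc0_ag.BoundedDegree

open Pool.Agent.Lib.MP_595dc0_ag

/-- For every `k ≥ 1` there is `d` such that, for every number `N ≥ 1` of factors and all
dimensions `w i`, the ideal of the `k`-th secant variety of the Segre variety is generated by
homogeneous polynomials of degree at most `d`. -/
theorem result (k : ℕ) (hk : 1 ≤ k) :
    ∃ d : ℕ, ∀ (N : ℕ) (w : Fin N → ℕ), 1 ≤ N → GeneratedInDegreeLE d (secantIdeal w k) :=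
  Dk.main hk

end Pool.Agent.Results.MP_595dc0_ag.BoundedDegree
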