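import Mathlib
import Pool.Agent.Lib.MP_595dc0_ag.Defs
import Pool.Agent.Lib.MP_595dc0_ag.Main

set_option autoImplicit false

namespace Pool.Agent.Results.MP_595dc0_ag.DegreeLowerBound

open Pool.Agent.Lib.MP_595dc0_ag

/-- If `m (m + 1) / 2 ≤ k` and `d + m (m + 1) / 2 ≤ 2 ^ (m - 1)`, there is a Segre variety with
three factors whose `k`-th secant variety is not cut out, even as a set, by the polynomials of
degree at most `d` in its ideal; in particular the ideal is not generated in degree at most `d`. -/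
theorem result (k m d : ℕ) (hm : 2 ≤ m) (hk : m * (m + 1) / 2 ≤ k)
    (hd : d + m * (m + 1) / 2 ≤ 2 ^ (m - 1)) :
    ∃ w : Fin 3 → ℕ, (∀ i, 0 < w i) ∧
      (∃ T : Idx w → ℂ, T ∉ secantCone w k ∧
        ∀ f ∈ secantIdeal w k, f.totalDegree ≤ d → MvPolynomial.eval T f = 0) ∧
      ¬ GeneratedInDegreeLE d (secantIdeal w k) := by
  obtain ⟨n, rfl⟩ : ∃ n, m = n + 1 := ⟨m - 1, by omega⟩
  obtain ⟨w, hw, -, T, hT, h⟩ := main k n d (by omega) hk hd
  exact ⟨w, hw, ⟨T, hT, h⟩, not_generated d _ T hT h⟩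

end Pool.Agent.Results.MP_595dc0_ag.DegreeLowerBound
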