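import Mathlib
import Pool.Agent.Lib.MP_595dc0_ag.Defs
import Pool.Agent.Lib.MP_595dc0_ag.EfMain

set_option autoImplicit false

namespace Pool.Agent.Results.MP_595dc0_ag.EffectiveSetBound

open Pool.Agent.Lib.MP_595dc0_ag

/-- For every `k`, every number `N ≥ 1` of factors and all dimensions `w i`, the cone over the
`k`-th secant variety of the Segre variety is the common zero set of the homogeneous polynomials
of degree at most `(k + 1) ^ (10 (k + 1) ^ 6)` in its ideal. -/
theorem result (k N : ℕ) (hN : 1 ≤ N) (w : Fin N → ℕ) :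
    secantCone w k = {T | ∀ f ∈ secantIdeal w k,
      (∃ e ≤ (k + 1) ^ (10 * (k + 1) ^ 6), f.IsHomogeneous e) → MvPolynomial.eval T f = 0} :=
  Set.ext fun T => ⟨fun h f hf _ => h f hf, Ef.main hN w T⟩

end Pool.Agent.Results.MP_595dc0_ag.EffectiveSetBound
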