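import Mathlib
import Pool.Agent.Lib.MP_595dc0_ag.Defs
import Pool.Agent.Lib.MP_595dc0_ag.Final

set_option autoImplicit false

namespace Pool.Agent.Results.MP_595dc0_ag.SuperExpLowerBound

open Pool.Agent.Lib.MP_595dc0_ag

/-- For every `k ≥ 512` there are a number `D ≥ k ^ (k ^ (4/3) / 128)` (with `D ≥ n ^ ((n - 3) n ^ 3)`
whenever `n = 2 ^ ν` and `n ^ 3 ≤ k`) and a Segre variety whose `k`-th secant variety is not cut
out, even as a set, by the polynomials of degree less than `D` in its ideal; in particular the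
ideal is not generated in degree at most `d` for any `d < D`. -/
theorem result (k : ℕ) (hk : 512 ≤ k) :
    ∃ D : ℕ, (k : ℝ) ^ ((k : ℝ) ^ (4 / 3 : ℝ) / 128) ≤ (D : ℝ) ∧
      (∀ ν : ℕ, 8 ^ ν ≤ k → (2 ^ ν) ^ ((2 ^ ν - 3) * 8 ^ ν) ≤ D) ∧
      ∃ (N : ℕ) (w : Fin N → ℕ), 0 < N ∧ (∀ i, 0 < w i) ∧
        (∃ T : Idx w → ℂ, T ∉ secantCone w k ∧
          ∀ f ∈ secantIdeal w k, f.totalDegree < D → MvPolynomial.eval T f = 0) ∧
        ∀ d < D, ¬ GeneratedInDegreeLE d (secantIdeal w k) := by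
  have h1 : 3 ≤ Nat.log 8 k := Nat.le_log_of_pow_le (by norm_num) hk
  have h2 : 8 ^ Nat.log 8 k ≤ k := Nat.pow_log_le_self 8 (by omega)
  have h3 : k < 8 ^ (Nat.log 8 k + 1) := Nat.lt_pow_succ_log_self (by norm_num) k
  exact ⟨_, numeric h1 (by omega) h3,
    fun ν hν => bound_mono (Nat.le_log_of_pow_le (by norm_num) hν),
    ((hardRank_cube h1).mono (by positivity) h2).final⟩

end Pool.Agent.Results.MP_595dc0_ag.SuperExpLowerBound
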